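import Pool.Agent.X239.BSPRed

/-!
# Skew partitions with four large parts are NP-hard to find, for every constant `c ≥ 4`, already
on bipartite graphs

In a bipartite graph with many isolated vertices, a skew partition of balanced size is a complete
bipartite subgraph with at least `n / c` vertices on both sides; such subgraphs encode cliques.  For
rational `c` this gives a many-one reduction from the clique problem.  For an arbitrary real
`c ≥ 4` the number `⌈n / c⌉`, which the reduction needs, is found by running the assumed algorithm
on the disjoint unions of `K_{q,q}` and isolated vertices.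
-/

namespace Pool.Agent.Results.MP_447f9a_lc.EveryConstantHard

open Pool.Agent.NPC Pool.Agent.H692R2 Pool.Agent.H673R2 Pool.Agent.W982.Hole Pool.Agent.X239.BSP

/-- For every real `c ≥ 4`: if a polynomial-time algorithm solves the search problem `BSP_c` on
perfect graphs, then `P = NP`; and already if a polynomial-time algorithm decides, for bipartite
graphs (which are perfect), whether a skew partition of balanced size with constant `c` exists, then
`P = NP`.  For every rational `c ≥ 4`, deciding this is `NP`-hard under polynomial-time many-one
reductions, on bipartite (hence perfect) graphs. -/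
theorem result :
    (∀ c : ℝ, 4 ≤ c →
      (∃ f : List Bool → List Bool, PolyTime f ∧
        SolvesSearch (fun G : FinGraph => IsPerfect G.graph) (IsBalancedSkew c) f) →
      ∀ L : Set (List Bool), InNP L → InP L) ∧
    (∀ c : ℝ, 4 ≤ c →
      (∃ f : List Bool → List Bool, PolyTime f ∧ ∀ G : FinGraph, G.graph.IsBipartite →
        (f (bits G) = [true] ↔ HasBalancedSkew c G)) →
      ∀ L : Set (List Bool), InNP L → InP L) ∧
    (∀ c : ℚ, 4 ≤ c →
      NPHardOn (fun G : FinGraph => G.graph.IsBipartite ∧ IsPerfect G.graph)
        (HasBalancedSkew (c : ℝ))) := by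
  refine ⟨?_, ?_, ?_⟩
  · rintro c hc ⟨f, hf, hs⟩
    refine collapse hc hf (g := fun y => decide (y.head? = some true))
      (Poly.decide_eq (Poly.head? NPC.Poly.id) (NPC.Poly.const _)) fun G hG => ?_
    change decide ((f (bits G)).head? = some true) = true ↔ HasBalancedSkew c G
    rcases hs G (isPerfect_of_isBipartite hG) with ⟨b, hb, hS⟩ | ⟨hb, hS⟩
    · rw [hb]
      exact ⟨fun _ => ⟨b, hS⟩, fun _ => by simp [bits, T.enc]⟩
    · rw [hb]
      refine ⟨fun h => ?_, fun ⟨b, hb'⟩ => absurd hb' (hS b)⟩
      simp [bits, T.enc] at h
  · rintro c hc ⟨f, hf, hs⟩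
    refine collapse hc hf (g := fun y => decide (y = [true]))
      (Poly.decide_eq NPC.Poly.id (NPC.Poly.const _)) fun G hG => ?_
    rw [decide_eq_true_iff]
    exact hs G hG
  · intro c hc
    exact npHardOn_of (hard_rat c hc) NPC.Poly.id (fun G h => ⟨h, isPerfect_of_isBipartite h⟩)
      (fun _ _ => Iff.rfl)

end Pool.Agent.Results.MP_447f9a_lc.EveryConstantHard
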